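import Pool.Agent.H97R2.LPB.Props

/-! # Energy of the nodes (task ENERGY of the project `1, log 2, π²`) -/

set_option autoImplicit false

open Polynomial Filter Topology MeasureTheory Pool.Agent.H337R2 Pool.Agent.LP

namespace Pool.Agent.LPB
namespace EN6

theorem dbl (g : ℕ → ℕ → ℝ) (hs : ∀ i j, g i j = g j i) (n : ℕ) :
    ∑ i ∈ Finset.range (n + 1), ∑ j ∈ Finset.range (n + 1), g i j =
      ∑ i ∈ Finset.range n, ∑ j ∈ Finset.range n, g i j + 2 * ∑ j ∈ Finset.range n, g n j
        + g n n := by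
  rw [Finset.sum_range_succ]
  simp only [Finset.sum_range_succ]
  rw [Finset.sum_add_distrib, Finset.sum_congr rfl fun i _ => hs i n]
  ring

theorem dl (n : ℕ) (hn : 1 ≤ n) :
    (n : ℝ) * (Real.log ((n : ℝ) + 1) - Real.log n) ≤ 1 := by
  have h0 : (0 : ℝ) < n := by exact_mod_cast hn
  have h1 : Real.log ((n : ℝ) + 1) - Real.log n = Real.log (1 + 1 / n) := by
    rw [← Real.log_div (by positivity) (by positivity)]
    congr 1
    field_simp
  have h2 : Real.log (1 + 1 / (n : ℝ)) ≤ 1 / n := by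
    have := Real.log_le_sub_one_of_pos (show (0 : ℝ) < 1 + 1 / n by positivity)
    linarith
  rw [h1]
  calc (n : ℝ) * Real.log (1 + 1 / n) ≤ n * (1 / n) := mul_le_mul_of_nonneg_left h2 h0.le
    _ = 1 := by field_simp

theorem lf_succ (n : ℕ) : Real.log (((n + 1).factorial : ℕ) : ℝ) =
    Real.log ((n.factorial : ℕ) : ℝ) + Real.log ((n : ℝ) + 1) := by
  have h1 : (0 : ℝ) < (n.factorial : ℝ) := by exact_mod_cast n.factorial_pos
  rw [Nat.factorial_succ]
  push_cast
  rw [Real.log_mul (by positivity) h1.ne']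
  ring

theorem lf_ge (n : ℕ) : (n : ℝ) * Real.log n - n ≤ Real.log ((n.factorial : ℕ) : ℝ) := by
  induction n with
  | zero => simp
  | succ n ih =>
    rw [lf_succ]
    rcases Nat.eq_zero_or_pos n with rfl | hn
    · simp
    · have := dl n hn
      push_cast
      nlinarith

theorem A_ge (n : ℕ) (hn : 1 ≤ n) : (n : ℝ) ^ 2 / 2 * Real.log n - 3 / 4 * (n : ℝ) ^ 2
    - n * Real.log n ≤ ∑ k ∈ Finset.range n, Real.log ((k.factorial : ℕ) : ℝ) := by
  induction n, hn using Nat.le_induction with
  | base => simp; norm_num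
  | succ n hn ih =>
    rw [Finset.sum_range_succ]
    have h1 := lf_ge n
    have h2 := dl n hn
    have hn' : (1 : ℝ) ≤ n := by exact_mod_cast hn
    have h3 : Real.log 2 ≤ Real.log ((n : ℝ) + 1) := Real.log_le_log (by norm_num) (by linarith)
    have h4 := Real.log_two_gt_d9
    have h5 : 0 ≤ Real.log (n : ℝ) := Real.log_nonneg hn'
    push_cast
    set a := Real.log (n : ℝ)
    set b := Real.log ((n : ℝ) + 1)
    have h6 : (n : ℝ) ^ 2 / 2 * (b - a) ≤ n / 2 := by nlinarith
    have h7 : (n : ℝ) * (b - a) ≤ 1 := h2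
    -- goal
    have h8 : (n : ℝ) * b - n * a ≥ 0 := by
      have : a ≤ b := Real.log_le_log (by linarith) (by linarith)
      nlinarith
    nlinarith

/-- the same-brick sum -/
theorem D_eq (c : ℝ) (hc : 0 < c) (n : ℕ) :
    ∑ i ∈ Finset.range n, ∑ j ∈ Finset.range n, Real.log |c * ((i : ℝ) - j)| =
      n * (n - 1) * Real.log c + 2 * ∑ k ∈ Finset.range n, Real.log ((k.factorial : ℕ) : ℝ) := by
  induction n with
  | zero => simp
  | succ n ih =>
    have key : ∑ j ∈ Finset.range n, Real.log |c * ((n : ℝ) - j)| =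
        n * Real.log c + Real.log ((n.factorial : ℕ) : ℝ) := by
      rw [← Finset.sum_range_reflect]
      have e1 : ∀ j ∈ Finset.range n, Real.log |c * ((n : ℝ) - ((n - 1 - j : ℕ) : ℝ))| =
          Real.log c + Real.log (((j + 1 : ℕ)) : ℝ) := by
        intro j hj
        have hj' := Finset.mem_range.1 hj
        have : ((n - 1 - j : ℕ) : ℝ) = (n : ℝ) - 1 - j := by
          rw [Nat.cast_sub (by omega), Nat.cast_sub (by omega)]
          simp
        rw [this, ← Real.log_mul hc.ne' (by positivity)]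
        have e2 : c * ((n : ℝ) - (n - 1 - j)) = c * ((j + 1 : ℕ) : ℝ) := by push_cast; ring
        rw [e2, abs_of_pos (by positivity)]
      rw [Finset.sum_congr rfl e1, Finset.sum_add_distrib, Finset.sum_const, Finset.card_range,
        nsmul_eq_mul, ← Real.log_prod (fun i _ => by positivity), ← Nat.cast_prod,
        Finset.prod_range_add_one_eq_factorial]
    rw [dbl (fun i j => Real.log |c * ((i : ℝ) - j)|) (fun i j => by
      rw [← abs_neg]; congr 2; ring), ih, key, Finset.sum_range_succ, sub_self, mul_zero, abs_zero,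
      Real.log_zero]
    push_cast
    ring

/-- lower bound for the same-brick sum -/
theorem D_ge (c : ℝ) (hc : 0 < c) (hc' : c ≤ 4) (n : ℕ) (hn : 2 ≤ n) :
    (n : ℝ) ^ 2 * Real.log n + (Real.log c - 3 / 2) * (n : ℝ) ^ 2 - 4 * n * Real.log n ≤
    ∑ i ∈ Finset.range n, ∑ j ∈ Finset.range n, Real.log |c * ((i : ℝ) - j)| := by
  rw [D_eq c hc]
  have h1 := A_ge n (by omega)
  have hn' : (2 : ℝ) ≤ n := by exact_mod_cast hn
  have h2 : Real.log c ≤ 2 * Real.log n := by
    have e : 2 * Real.log (n : ℝ) = Real.log ((n : ℝ) ^ 2) := by rw [Real.log_pow]; push_cast; ring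
    rw [e]
    exact Real.log_le_log hc (by nlinarith)
  have h3 : (n : ℝ) * Real.log c ≤ n * (2 * Real.log n) :=
    mul_le_mul_of_nonneg_left h2 (by linarith)
  nlinarith

/-- left ends of the bricks -/
noncomputable def aa : Fin 4 → ℝ := ![0, -(15 / 16), 15 / 16, -3]

/-- lengths of the bricks -/
noncomputable def cc : Fin 4 → ℝ := ![15 / 16, 15 / 16, 33 / 16, 33 / 16]

/-- nodes of the bricks, in increasing order -/
noncomputable def XX (n : ℕ) (r : Fin 4) (i : ℕ) : ℝ := aa r * n + cc r * ((i : ℝ) + 1 / 2)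

theorem refl_cast (n j : ℕ) (hj : j < n) : ((n - 1 - j : ℕ) : ℝ) = (n : ℝ) - 1 - j := by
  rw [Nat.cast_sub (by omega), Nat.cast_sub (by omega)]
  simp

theorem split (n : ℕ) (f : ℝ → ℝ) : ∑ i ∈ Finset.range (4 * n), f (xn n i) =
    ∑ r : Fin 4, ∑ i ∈ Finset.range n, f (XX n r i) := by
  have e0 : 4 * n = ((n + n) + n) + n := by ring
  rw [e0, Finset.sum_range_add, Finset.sum_range_add, Finset.sum_range_add, Fin.sum_univ_four]
  congr 1
  · congr 1
    · congr 1
      · refine Finset.sum_congr rfl fun i hi => ?_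
        have hi' := Finset.mem_range.1 hi
        simp [xn, XX, aa, cc, hi']
      · rw [← Finset.sum_range_reflect (fun i => f (XX n 1 i))]
        refine Finset.sum_congr rfl fun i hi => ?_
        have hi' := Finset.mem_range.1 hi
        congr 1
        rw [XX, refl_cast n i hi', xn, if_neg (by omega), if_pos (by omega)]
        have : n + i - n = i := by omega
        rw [this]
        simp [aa, cc]
        ring
    · refine Finset.sum_congr rfl fun i hi => ?_
      have hi' := Finset.mem_range.1 hi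
      congr 1
      rw [XX, xn, if_neg (by omega), if_neg (by omega), if_pos (by omega)]
      have : n + n + i - 2 * n = i := by omega
      rw [this]
      simp [aa, cc]
  · rw [← Finset.sum_range_reflect (fun i => f (XX n 3 i))]
    refine Finset.sum_congr rfl fun i hi => ?_
    have hi' := Finset.mem_range.1 hi
    congr 1
    rw [XX, refl_cast n i hi', xn, if_neg (by omega), if_neg (by omega), if_neg (by omega),
      if_pos (by omega)]
    have : n + n + n + i - 3 * n = i := by omega
    rw [this]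
    simp [aa, cc]
    ring

theorem GG_neg (z : ℝ) : GG (-z) = GG z := by
  unfold GG
  rw [Real.log_neg_eq_log, neg_sq]

theorem GG_zero : GG 0 = 0 := by simp [GG]

theorem en_self (a c : ℝ) (hc : c ≠ 0) : en a (a + c) a (a + c) = Real.log c - 3 / 2 := by
  unfold en
  have e1 : a + c - a = c := by ring
  have e2 : a + c - (a + c) = 0 := by ring
  have e3 : a - a = 0 := by ring
  have e4 : a - (a + c) = -c := by ring
  rw [e1, e2, e3, e4, GG_neg, GG_zero]
  unfold GG
  field_simp
  ring

theorem sum_en : ∑ r : Fin 4, ∑ s : Fin 4, en (aa r) (aa r + cc r) (aa s) (aa s + cc s) = Qx := by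
  have g1 : GG (-(15 / 16)) = GG (15 / 16) := GG_neg _
  have g2 : GG (-(33 / 16)) = GG (33 / 16) := GG_neg _
  have g3 : GG (-3) = GG 3 := GG_neg _
  have g4 : GG (-(15 / 8)) = GG (15 / 8) := GG_neg _
  have g5 : GG (-(63 / 16)) = GG (63 / 16) := GG_neg _
  have g6 : GG (-6) = GG 6 := GG_neg _
  have g7 := GG_zero
  have a0 : aa 0 = 0 := rfl
  have a1 : aa 1 = -(15 / 16) := rfl
  have a2 : aa 2 = 15 / 16 := rfl
  have a3 : aa 3 = -3 := rfl
  have c0 : cc 0 = 15 / 16 := rfl
  have c1 : cc 1 = 15 / 16 := rfl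
  have c2 : cc 2 = 33 / 16 := rfl
  have c3 : cc 3 = 33 / 16 := rfl
  simp only [Fin.sum_univ_four, a0, a1, a2, a3, c0, c1, c2, c3, Qx, en]
  norm_num
  simp only [g1, g2, g3, g4, g5, g6, g7]
  ring

/-- the double sum over one pair of bricks -/
noncomputable def TT (n : ℕ) (r s : Fin 4) : ℝ :=
  ∑ i ∈ Finset.range n, ∑ j ∈ Finset.range n, Real.log |XX n r i - XX n s j|

/-- the full double sum -/
noncomputable def FF (n m : ℕ) : ℝ :=
  ∑ i ∈ Finset.range m, ∑ j ∈ Finset.range m, Real.log |xn n i - xn n j|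

theorem FF_four (n : ℕ) : FF n (4 * n) = ∑ r : Fin 4, ∑ s : Fin 4, TT n r s := by
  unfold FF
  rw [split n (fun x => ∑ j ∈ Finset.range (4 * n), Real.log |x - xn n j|)]
  refine Finset.sum_congr rfl fun r _ => ?_
  have e : ∀ i, ∑ j ∈ Finset.range (4 * n), Real.log |XX n r i - xn n j| =
      ∑ s : Fin 4, ∑ j ∈ Finset.range n, Real.log |XX n r i - XX n s j| :=
    fun i => split n (fun y => Real.log |XX n r i - y|)
  simp only [e]
  exact Finset.sum_comm

theorem FF_succ (n m : ℕ) : FF n (m + 1) = FF n m +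
    2 * ∑ j ∈ Finset.range m, Real.log |xn n m - xn n j| := by
  unfold FF
  rw [dbl (fun i j => Real.log |xn n i - xn n j|) (fun i j => by rw [abs_sub_comm]), sub_self,
    abs_zero, Real.log_zero, add_zero]

theorem FF_eq (n m : ℕ) : ∑ i ∈ Finset.range m, ∑ j ∈ (Finset.range m).erase i,
    Real.log |xn n i - xn n j| = FF n m := by
  unfold FF
  refine Finset.sum_congr rfl fun i _ => ?_
  apply Finset.sum_erase
  rw [sub_self, abs_zero, Real.log_zero]

theorem TT_self (n : ℕ) (hn : 2 ≤ n) (r : Fin 4) :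
    en (aa r) (aa r + cc r) (aa r) (aa r + cc r) * (n : ℝ) ^ 2 + (n : ℝ) ^ 2 * Real.log n -
      4 * n * Real.log n ≤ TT n r r := by
  have hc : 0 < cc r ∧ cc r ≤ 4 := by
    fin_cases r <;> simp [cc] <;> norm_num
  rw [en_self _ _ hc.1.ne']
  have h := D_ge (cc r) hc.1 hc.2 n hn
  have e : TT n r r = ∑ i ∈ Finset.range n, ∑ j ∈ Finset.range n,
      Real.log |cc r * ((i : ℝ) - j)| := by
    unfold TT
    refine Finset.sum_congr rfl fun i _ => Finset.sum_congr rfl fun j _ => ?_
    congr 2
    unfold XX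
    ring
  rw [e]
  linarith

theorem disj (r s : Fin 4) (h : r ≠ s) : aa s + cc s ≤ aa r ∨ aa r + cc r ≤ aa s := by
  have a0 : aa 0 = 0 := rfl
  have a1 : aa 1 = -(15 / 16) := rfl
  have a2 : aa 2 = 15 / 16 := rfl
  have a3 : aa 3 = -3 := rfl
  have c0 : cc 0 = 15 / 16 := rfl
  have c1 : cc 1 = 15 / 16 := rfl
  have c2 : cc 2 = 33 / 16 := rfl
  have c3 : cc 3 = 33 / 16 := rfl
  fin_cases r <;> fin_cases s <;> first | exact absurd rfl h | skip
  all_goals simp only [Fin.zero_eta, Fin.mk_one, Fin.reduceFinMk, a0, a1, a2, a3, c0, c1, c2, c3]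
  all_goals norm_num

theorem four_ge (hp : S_pair) : ∃ C : ℝ, 0 < C ∧ ∀ n : ℕ, 2 ≤ n →
    16 * (n : ℝ) ^ 2 * Real.log n + Qx * (n : ℝ) ^ 2 - C * n * Real.log n ≤ FF n (4 * n) := by
  obtain ⟨C, hC, h⟩ := hp
  refine ⟨16 * (C + 4), by positivity, fun n hn => ?_⟩
  have hn' : (2 : ℝ) ≤ n := by exact_mod_cast hn
  have hl : 0 ≤ (n : ℝ) * Real.log n := mul_nonneg (by linarith) (Real.log_nonneg (by linarith))
  have key : ∀ r s : Fin 4, en (aa r) (aa r + cc r) (aa s) (aa s + cc s) * (n : ℝ) ^ 2 +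
      ((n : ℝ) ^ 2 * Real.log n - (C + 4) * (n * Real.log n)) ≤ TT n r s := by
    intro r s
    by_cases hrs : r = s
    · subst hrs
      have := TT_self n hn r
      nlinarith
    · have b1 : ∀ r : Fin 4, 1 / 2 ≤ cc r ∧ cc r ≤ 3 ∧ |aa r| ≤ 3 := by
        intro r
        have a0 : aa 0 = 0 := rfl
        have a1 : aa 1 = -(15 / 16) := rfl
        have a2 : aa 2 = 15 / 16 := rfl
        have a3 : aa 3 = -3 := rfl
        have c0 : cc 0 = 15 / 16 := rfl
        have c1 : cc 1 = 15 / 16 := rfl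
        have c2 : cc 2 = 33 / 16 := rfl
        have c3 : cc 3 = 33 / 16 := rfl
        fin_cases r
        all_goals simp only [Fin.zero_eta, Fin.mk_one, Fin.reduceFinMk, a0, a1, a2, a3, c0, c1,
          c2, c3]
        all_goals norm_num
      have := h n hn (aa r) (cc r) (aa s) (cc s) (b1 r).1 (b1 r).2.1 (b1 s).1 (b1 s).2.1
        (b1 r).2.2 (b1 s).2.2 (disj r s hrs)
      change _ ≤ TT n r s at this
      nlinarith
  rw [FF_four]
  have h1 : ∑ r : Fin 4, ∑ s : Fin 4, (en (aa r) (aa r + cc r) (aa s) (aa s + cc s) * (n : ℝ) ^ 2 +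
      ((n : ℝ) ^ 2 * Real.log n - (C + 4) * (n * Real.log n))) ≤
      ∑ r : Fin 4, ∑ s : Fin 4, TT n r s :=
    Finset.sum_le_sum fun r _ => Finset.sum_le_sum fun s _ => key r s
  refine le_trans (le_of_eq ?_) h1
  simp only [Finset.sum_add_distrib, ← Finset.sum_mul, sum_en]
  simp
  ring

end EN6

open EN6 in
/-- energy of the nodes -/
theorem G6_energy (hp : S_pair) (hs : S_sep) : S_energy := by
  obtain ⟨C, hC, h⟩ := four_ge hp
  refine ⟨C + 32, by positivity, fun n hn m hm1 hm2 => ?_⟩
  rw [FF_eq]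
  have hn' : (2 : ℝ) ≤ n := by exact_mod_cast hn
  have h4 := h n hn
  have hl2 : Real.log 2 ≤ Real.log n := Real.log_le_log (by norm_num) hn'
  have hl0 := Real.log_two_gt_d9
  have hL : 0 ≤ (n : ℝ) * Real.log n := mul_nonneg (by linarith) (by linarith)
  obtain rfl | rfl | rfl : m = 4 * n ∨ m = 4 * n + 1 ∨ m = 4 * n - 1 := by omega
  · nlinarith
  · rw [FF_succ]
    have e1 : ∀ j ∈ Finset.range (4 * n), -(Real.log n * 2) ≤
        Real.log |xn n (4 * n) - xn n j| := by
      intro j hj
      have hj' := Finset.mem_range.1 hj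
      have h5 := (hs (by omega : 1 ≤ n) (4 * n) j (by omega) (by omega) (by omega)).1
      have h6 : Real.log (15 / 32) ≤ Real.log |xn n (4 * n) - xn n j| :=
        Real.log_le_log (by norm_num) h5
      have h7 : -(Real.log 2 * 2) ≤ Real.log (15 / 32) := by
        have : -(Real.log 2 * 2) = Real.log (1 / 4) := by
          rw [show (1 / 4 : ℝ) = (2 ^ 2)⁻¹ by norm_num, Real.log_inv, Real.log_pow]
          push_cast
          ring
        rw [this]
        exact Real.log_le_log (by norm_num) (by norm_num)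
      linarith
    have e2 := Finset.card_nsmul_le_sum _ _ _ e1
    rw [Finset.card_range, nsmul_eq_mul] at e2
    push_cast at e2
    nlinarith
  · have e0 : 4 * n = (4 * n - 1) + 1 := by omega
    rw [e0, FF_succ] at h4
    have e1 : ∀ j ∈ Finset.range (4 * n - 1), Real.log |xn n (4 * n - 1) - xn n j| ≤
        Real.log n * 4 := by
      intro j hj
      have hj' := Finset.mem_range.1 hj
      have h5 := hs (by omega : 1 ≤ n) (4 * n - 1) j (by omega) (by omega) (by omega)
      have h6 : Real.log |xn n (4 * n - 1) - xn n j| ≤ Real.log (6 * n) :=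
        Real.log_le_log (by linarith [h5.1]) h5.2
      have h7 : Real.log (6 * n) ≤ Real.log 2 * 3 + Real.log n := by
        have : Real.log 2 * 3 = Real.log 8 := by
          rw [show (8 : ℝ) = 2 ^ 3 by norm_num, Real.log_pow]
          push_cast
          ring
        rw [this, ← Real.log_mul (by norm_num) (by positivity)]
        exact Real.log_le_log (by positivity) (by linarith)
      linarith
    have e2 := Finset.sum_le_card_nsmul _ _ _ e1
    rw [Finset.card_range, nsmul_eq_mul] at e2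
    have e3 : ((4 * n - 1 : ℕ) : ℝ) = 4 * n - 1 := by
      rw [Nat.cast_sub (by omega)]
      push_cast
      ring
    rw [e3] at e2
    nlinarith

end Pool.Agent.LPB
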